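import Pool.Agent.H37.CND.Stmts

/-!
# Row `EXP` of the board `cnd`: the leading coefficient
-/

set_option autoImplicit false

namespace Pool.CND

theorem exp_thm : S_EXP := by
  intro k L _ _ _ P u x hu hu1 hx
  have hun : u ^ (P.ord x) ≠ 0 := zpow_ne_zero _ hu
  have hord : P.ord (u ^ (P.ord x)) = P.ord x := by
    rw [P.ord_zpow hu, hu1, mul_one]
  have hy : x / u ^ (P.ord x) ≠ 0 := div_ne_zero hx hun
  have hy0 : P.ord (x / u ^ (P.ord x)) = 0 := by
    rw [P.ord_div hx hun, hord, sub_self]
  obtain ⟨c, hc⟩ := P.residue _ hy hy0.ge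
  refine ⟨c, ?_, ?_⟩
  · intro h0
    rw [h0, map_zero, sub_zero] at hc
    rcases hc with hc | hc
    · exact hy hc
    · omega
  · have e : x - algebraMap k L c * u ^ (P.ord x) =
        (x / u ^ (P.ord x) - algebraMap k L c) * u ^ (P.ord x) := by
      field_simp
    rw [e, add_comm]
    refine P.ge_mul ?_ (Or.inr hord.ge)
    rcases hc with hc | hc
    · exact Or.inl (by rw [← hc, sub_self])
    · exact Or.inr (by omega)

end Pool.CND
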