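import Pool.Agent.H37.CND.Stmts

/-!
# Row `FXP` of the board `cnd`: the place of the fixed field
-/

set_option autoImplicit false

namespace Pool.CND

open Finset

theorem fxp_norm {k L G : Type} [Field k] [Field L] [Algebra k L] [Group G] [Finite G]
    (P : Place k L) (ρ : G →* (L ≃ₐ[k] L)) (N : Subgroup G) (hf : ∀ n ∈ N, Fixes P (ρ n)) :
    ∃ y : L, y ≠ 0 ∧ (∀ n ∈ N, ρ n y = y) ∧ P.ord y = (Nat.card N : ℤ) := by
  classical
  have : Fintype N := Fintype.ofFinite N
  refine ⟨∏ n : N, ρ (n : G) P.pi, ?_, ?_, ?_⟩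
  · rw [Finset.prod_ne_zero_iff]
    intro n _
    simpa using P.pi_ne
  · intro m hm
    rw [map_prod]
    have : ∀ n : N, ρ m (ρ (n : G) P.pi) = ρ (((⟨m, hm⟩ : N) * n : N) : G) P.pi := by
      intro n
      rw [Subgroup.coe_mul, map_mul, AlgEquiv.mul_apply]
    rw [Finset.prod_congr rfl (fun n _ => this n)]
    exact Fintype.prod_equiv (Equiv.mulLeft (⟨m, hm⟩ : N)) _ _ (fun n => rfl)
  · have key : ∀ s : Finset N, P.ord (∏ n ∈ s, ρ (n : G) P.pi) = (s.card : ℤ) ∧
        (∏ n ∈ s, ρ (n : G) P.pi) ≠ 0 := by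
      intro s
      induction s using Finset.induction_on with
      | empty => simp [P.ord_one]
      | insert a s ha ih =>
        have h0 : ρ (a : G) P.pi ≠ 0 := by simpa using P.pi_ne
        rw [Finset.prod_insert ha, Finset.card_insert_of_notMem ha]
        refine ⟨?_, mul_ne_zero h0 ih.2⟩
        rw [P.ord_mul _ _ h0 ih.2, hf a a.2 _ P.pi_ne, P.ord_pi, ih.1]
        push_cast
        ring
    rw [(key Finset.univ).1, Finset.card_univ, Nat.card_eq_fintype_card]

theorem fxp_thm (h1 : S_TOT) : S_FXP := by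
  intro k L G _ _ _ _ _ P ρ N hinj hf
  have hmem : ∀ x, x ∈ IntermediateField.fixedField (N.map ρ) ↔ ∀ n ∈ N, ρ n x = x := by
    intro x
    rw [IntermediateField.mem_fixedField_iff]
    constructor
    · intro h n hn
      exact h _ (Subgroup.mem_map_of_mem ρ hn)
    · intro h g hg
      obtain ⟨n, hn, rfl⟩ := Subgroup.mem_map.1 hg
      exact h n hn
  set F := IntermediateField.fixedField (N.map ρ) with hF
  refine ⟨F, hmem, ?_⟩
  have hn0 : (0 : ℤ) < (Nat.card N : ℤ) := by
    exact_mod_cast Nat.card_pos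
  have hdvd : ∀ x : F, x ≠ 0 → (Nat.card N : ℤ) * (P.ord (x : L) / (Nat.card N : ℤ)) =
      P.ord (x : L) := by
    intro x hx
    apply Int.mul_ediv_cancel'
    exact h1 k L G P ρ N hinj hf (x : L) (by simpa using hx) ((hmem _).1 x.2)
  obtain ⟨y, hy0, hyN, hyo⟩ := fxp_norm P ρ N hf
  refine ⟨⟨fun x => P.ord (x : L) / (Nat.card N : ℤ), ?_, ?_, ?_, ?_, ?_⟩, hdvd⟩
  · intro x y hx hy
    have e := P.ord_mul (x : L) (y : L) (by simpa using hx) (by simpa using hy)
    have e1 := hdvd x hx
    have e2 := hdvd y hy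
    have e3 := hdvd (x * y) (mul_ne_zero hx hy)
    apply mul_left_cancel₀ hn0.ne'
    rw [e3, mul_add, e1, e2]
    exact e
  · intro x y hx hy hxy
    have e := P.ord_add (x : L) (y : L) (by simpa using hx) (by simpa using hy)
      (by exact_mod_cast (fun h => hxy (Subtype.ext h)))
    have e1 := hdvd x hx
    have e2 := hdvd y hy
    have e3 := hdvd (x + y) hxy
    refine le_of_mul_le_mul_left ?_ hn0
    rw [e3, mul_min_of_nonneg _ _ hn0.le, e1, e2]
    exact e
  · refine ⟨⟨y, (hmem y).2 hyN⟩, fun h => hy0 (congrArg Subtype.val h), ?_⟩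
    show P.ord y / (Nat.card N : ℤ) = 1
    rw [hyo]
    exact Int.ediv_self hn0.ne'
  · intro c hc
    show P.ord (algebraMap k L c) / (Nat.card N : ℤ) = 0
    rw [P.ord_const c hc]
    exact Int.zero_ediv _
  · intro x hx hx0
    have e1 := hdvd x hx
    have h0 : 0 ≤ P.ord (x : L) := by
      rw [← e1]
      exact mul_nonneg hn0.le hx0
    obtain ⟨c, hc⟩ := P.residue (x : L) (by simpa using hx) h0
    refine ⟨c, ?_⟩
    by_cases hxc : x - algebraMap k F c = 0
    · exact Or.inl (sub_eq_zero.1 hxc)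
    · right
      have e2 := hdvd _ hxc
      have h3 : 0 < P.ord ((x - algebraMap k F c : F) : L) := by
        rcases hc with hc | hc
        · exfalso
          apply hxc
          apply Subtype.ext
          show (x : L) - algebraMap k L c = 0
          rw [← hc, sub_self]
        · exact hc
      rw [← e2] at h3
      exact pos_of_mul_pos_right h3 hn0.le

end Pool.CND
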