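import Pool.Agent.H37.CND.Stmts

/-!
# Row `QIS` of the board `cnd`: the quaternion group of order 8
-/

set_option autoImplicit false

namespace Pool.CND

/-- a homomorphism from the quaternion group of order 8 -/
theorem qis_hom {G : Type} [Group G] (A X : G) (hA : A ^ 4 = 1) (hX : X * X = A ^ 2)
    (hAX : A * X = X * A⁻¹) :
    ∃ f : QuaternionGroup 2 →* G, (∀ i : ZMod (2 * 2), f (QuaternionGroup.a i) = A ^ i.val) ∧
      ∀ i : ZMod (2 * 2), f (QuaternionGroup.xa i) = X * A ^ i.val := by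
  have hadd : ∀ i j : ZMod (2 * 2), A ^ (i + j).val = A ^ i.val * A ^ j.val := by
    intro i j
    rw [ZMod.val_add, ← pow_add]
    exact (pow_eq_pow_mod _ hA).symm
  have h0 : A ^ (0 : ZMod (2 * 2)).val = 1 := by simp
  have hneg : ∀ i : ZMod (2 * 2), A ^ (-i).val = (A ^ i.val)⁻¹ := by
    intro i
    rw [eq_inv_iff_mul_eq_one, ← hadd, neg_add_cancel, h0]
  have hcomm : ∀ n : ℕ, A ^ n * X = X * (A ^ n)⁻¹ := by
    intro n
    induction n with
    | zero => simp
    | succ n ih =>
      rw [pow_succ, mul_assoc, hAX, ← mul_assoc, ih, mul_assoc, mul_inv_rev, ← mul_inv_rev,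
        ← mul_inv_rev, ← pow_succ', ← pow_succ]
  have h2 : A ^ ((2 : ℕ) : ZMod (2 * 2)).val = A ^ 2 := rfl
  let F : QuaternionGroup 2 → G := fun q => match q with
    | QuaternionGroup.a i => A ^ i.val
    | QuaternionGroup.xa i => X * A ^ i.val
  have hmul : ∀ x y, F (x * y) = F x * F y := by
    rintro (i | i) (j | j)
    · show A ^ (i + j).val = A ^ i.val * A ^ j.val
      exact hadd i j
    · show X * A ^ (j - i).val = A ^ i.val * (X * A ^ j.val)
      rw [← mul_assoc, hcomm, sub_eq_neg_add, hadd, hneg, mul_assoc]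
    · show X * A ^ (i + j).val = X * A ^ i.val * A ^ j.val
      rw [hadd, mul_assoc]
    · show A ^ (((2 : ℕ) : ZMod (2 * 2)) + j - i).val = X * A ^ i.val * (X * A ^ j.val)
      have e : X * A ^ i.val * (X * A ^ j.val) = X * (A ^ i.val * X) * A ^ j.val := by group
      rw [e, hcomm, ← mul_assoc X X, hX]
      have e2 : ((2 : ℕ) : ZMod (2 * 2)) + j - i = ((2 : ℕ) : ZMod (2 * 2)) + (-i + j) := by ring
      rw [e2, hadd, hadd, hneg, h2, mul_assoc]
  exact ⟨MonoidHom.mk' F hmul, fun i => rfl, fun i => rfl⟩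

theorem qis_thm (h1 : S_EGC) : S_QIS := by
  intro k _ _ _ _
  obtain ⟨hfin, hcard⟩ := h1 2 k 1 le_rfl
  have h2 : (2 : k) = 0 := by exact_mod_cast CharP.cast_eq_zero k 2
  obtain ⟨ω, hω⟩ : ∃ ω : k, ω ^ 2 + ω + 1 = 0 := by
    have hq : (Polynomial.X ^ 2 + Polynomial.X + 1 : Polynomial k).degree = 2 := by
      compute_degree!
    obtain ⟨z, hz⟩ := IsAlgClosed.exists_root (Polynomial.X ^ 2 + Polynomial.X + 1 : Polynomial k)
      (by rw [hq]; norm_num)
    refine ⟨z, ?_⟩
    simpa [Polynomial.IsRoot.def] using hz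
  have hω3 : ω ^ 3 = 1 := by linear_combination (ω - 1) * hω
  have hω0 : ω ≠ 0 := by
    intro h
    rw [h] at hω
    norm_num at hω
  have hω1 : ω ≠ 1 := by
    intro h
    rw [h] at hω
    apply one_ne_zero (α := k)
    linear_combination hω - h2
  let A : EG k 2 1 := ⟨(1, ω), by
    refine ⟨?_, ?_⟩
    · show (1 : k) ^ (2 ^ (2 * 1)) = -1
      linear_combination h2
    · show ω ^ 2 - ω = (1 : k) ^ (2 ^ 1 + 1)
      linear_combination hω - (ω + 1) * h2⟩
  let X : EG k 2 1 := ⟨(ω, ω), by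
    refine ⟨?_, ?_⟩
    · show ω ^ (2 ^ (2 * 1)) = -ω
      norm_num
      linear_combination ω * hω3 + ω * h2
    · show ω ^ 2 - ω = ω ^ (2 ^ 1 + 1)
      norm_num
      linear_combination hω - (ω + 1) * h2 - hω3⟩
  have hAw : A.w = 1 := rfl
  have hAβ : A.β = ω := rfl
  have hXw : X.w = ω := rfl
  have hXβ : X.β = ω := rfl
  have hB : ∀ w x : k, Bf 2 1 w x = -(w ^ 2 * x) := by
    intro w x
    simp [Bf]
  have hA2w : (A ^ 2).w = 0 := by
    rw [sq, EG.mul_w, hAw]
    linear_combination h2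
  have hA2β : (A ^ 2).β = 1 := by
    rw [sq, EG.mul_β, hB, hAw, hAβ]
    linear_combination (ω - 1) * h2
  have hA4 : A ^ 4 = 1 := by
    have : A ^ 4 = A ^ 2 * A ^ 2 := by rw [← pow_add]
    rw [this]
    ext
    · rw [EG.mul_w, hA2w, EG.one_w, add_zero]
    · rw [EG.mul_β, hB, hA2w, hA2β, EG.one_β]
      linear_combination h2
  have hX2 : X * X = A ^ 2 := by
    ext
    · rw [EG.mul_w, hA2w, hXw]
      linear_combination ω * h2
    · rw [EG.mul_β, hB, hA2β, hXβ, hXw]
      linear_combination (ω - 1) * h2 - hω3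
  have hAX : A * X = X * A⁻¹ := by
    ext
    · rw [EG.mul_w, EG.mul_w, EG.inv_w, hXw, hAw]
      linear_combination h2
    · rw [EG.mul_β, EG.mul_β, EG.inv_w, EG.inv_β, hB, hB, hB, hXw, hAw, hAβ, hXβ]
      linear_combination (2 * ω + 1) * h2 - hω
  obtain ⟨f, hf1, hf2⟩ := qis_hom A X hA4 hX2 hAX
  have hApow : ∀ n : ℕ, (A ^ n).w = n := by
    intro n
    induction n with
    | zero => simp [EG.one_w]
    | succ n ih =>
      rw [pow_succ, EG.mul_w, ih, hAw]
      push_cast
      ring
  have hinj : Function.Injective f := by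
    rw [injective_iff_map_eq_one]
    rintro (i | i) hi
    · rw [hf1] at hi
      have hw := congrArg EG.w hi
      rw [hApow, EG.one_w] at hw
      have hev : (2 : ℕ) ∣ i.val := (CharP.cast_eq_zero_iff k 2 _).1 hw
      have hlt : i.val < 4 := ZMod.val_lt i
      obtain ⟨m, hm⟩ := hev
      have hm2 : m = 0 ∨ m = 1 := by omega
      rcases hm2 with rfl | rfl
      · have : i = 0 := (ZMod.val_eq_zero i).1 (by omega)
        rw [this]
        rfl
      · exfalso
        rw [hm, mul_one] at hi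
        have := congrArg EG.β hi
        rw [hA2β, EG.one_β] at this
        exact one_ne_zero this
    · exfalso
      rw [hf2] at hi
      have hw := congrArg EG.w hi
      rw [EG.mul_w, hApow, hXw, EG.one_w] at hw
      rcases Nat.even_or_odd' i.val with ⟨m, hm | hm⟩
      · rw [hm] at hw
        push_cast at hw
        rw [h2, zero_mul, add_zero] at hw
        exact hω0 hw
      · rw [hm] at hw
        push_cast at hw
        apply hω1
        linear_combination hw - (m + 1) * h2
  refine ⟨MulEquiv.ofBijective f ?_⟩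
  have : Fintype (EG k 2 1) := Fintype.ofFinite _
  rw [Fintype.bijective_iff_injective_and_card]
  refine ⟨hinj, ?_⟩
  rw [QuaternionGroup.card, ← Nat.card_eq_fintype_card, hcard]
  norm_num

end Pool.CND
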